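import Pool.Agent.helper23.CO.SpecC

/-!
# Row CUT: an ordering of the torus with small cuts
-/

open Finset Filter Topology

namespace CO

open CU

/-- sites of the slab with given second coordinate -/
def CUT_A (k n : ℕ) [NeZero n] (I : Finset (ZMod n)) (c : ℕ) : Finset (Site (k + 2) n) :=
  univ.filter fun x => x 0 ∈ I ∧ (x 1).val = c

theorem CUT_card (k n : ℕ) [NeZero n] (I : Finset (ZMod n)) (c : ℕ) :
    (CUT_A k n I c).card ≤ I.card * n ^ k := by
  classical
  let t : Fin (k + 2) → Finset (ZMod n) := fun i =>
    if i = 0 then I else if i = 1 then univ.filter (fun u : ZMod n => u.val = c) else univ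
  have hsub : CUT_A k n I c ⊆ Fintype.piFinset t := by
    intro x hx
    obtain ⟨h1, h2⟩ := (mem_filter.1 hx).2
    rw [Fintype.mem_piFinset]
    intro i
    by_cases h0 : i = 0
    · subst h0
      simpa [t] using h1
    · by_cases h3 : i = 1
      · subst h3
        simp [t, h2]
      · simp [t, h0, h3]
  refine (card_le_card hsub).trans ?_
  rw [Fintype.card_piFinset, Fin.prod_univ_succ, Fin.prod_univ_succ]
  have e0 : (t 0).card = I.card := by simp [t]
  have e1 : (t (Fin.succ 0)).card ≤ 1 := by
    have h3 : t (Fin.succ 0) = univ.filter (fun u : ZMod n => u.val = c) := by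
      simp [t]
    rw [h3, card_le_one]
    intro a ha b hb
    have ha' := (mem_filter.1 ha).2
    have hb' := (mem_filter.1 hb).2
    exact ZMod.val_injective n (ha'.trans hb'.symm)
  have e2 : ∏ i : Fin k, (t i.succ.succ).card = n ^ k := by
    have h3 : ∀ i : Fin k, (t i.succ.succ).card = n := by
      intro i
      have h4 : t i.succ.succ = univ := by
        have h5 : i.succ.succ ≠ 0 := Fin.succ_ne_zero _
        have h6 : i.succ.succ ≠ (1 : Fin (k + 2)) := by
          intro h
          have h7 : i.succ = (0 : Fin (k + 1)) := Fin.succ_injective _ h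
          exact Fin.succ_ne_zero _ h7
        simp [t, h5, h6]
      rw [h4, card_univ, ZMod.card]
    simp only [h3, prod_const, card_univ, Fintype.card_fin]
  rw [e0, e2]
  calc I.card * ((t (Fin.succ 0)).card * n ^ k) ≤ I.card * (1 * n ^ k) := by gcongr
    _ = I.card * n ^ k := by rw [one_mul]

/-- Row CUT. -/
theorem CUT : CUT_stmt := by
  classical
  intro d n _ hd I hd2 hn
  obtain ⟨k, rfl⟩ : ∃ k, d = k + 2 := ⟨d - 2, by omega⟩
  let e : Site (k + 2) n ≃ Fin (Fintype.card (Site (k + 2) n)) := Fintype.equivFin _
  set N : ℕ := Fintype.card (Site (k + 2) n) with hN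
  have hNpos : 0 < N := Fintype.card_pos
  let ρ : Site (k + 2) n → ℕ := fun x => (x 1).val * N + (e x : ℕ)
  have hρ : ∀ x, ρ x = (x 1).val * N + (e x : ℕ) := fun x => rfl
  have he : ∀ x, (e x : ℕ) < N := fun x => (e x).2
  refine ⟨ρ, ?_, ?_⟩
  · intro x y hxy
    have h1 : ρ x % N = ρ y % N := by rw [hxy]
    have hm : ∀ a b : ℕ, b < N → (a * N + b) % N = b := by
      intro a b hb
      rw [Nat.add_comm, Nat.add_mul_mod_self_right, Nat.mod_eq_of_lt hb]
    rw [hρ, hρ, hm _ _ (he x), hm _ _ (he y)] at h1
    exact e.injective (Fin.ext h1)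
  · intro r
    have hq1 : r / N * N ≤ r := Nat.div_mul_le_self r N
    have hq2 : r < (r / N + 1) * N := by
      have := Nat.lt_div_mul_add (a := r) hNpos
      rw [add_mul, one_mul]
      exact this
    generalize r / N = q at hq1 hq2
    have hlt : ∀ x : Site (k + 2) n, (x 1).val < q → ρ x < r := by
      intro x hx
      have h1 : ((x 1).val + 1) * N ≤ q * N := Nat.mul_le_mul_right N hx
      have h2 := he x
      rw [add_mul, one_mul] at h1
      rw [hρ]
      omega
    have hge : ∀ x : Site (k + 2) n, q < (x 1).val → ¬ ρ x < r := by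
      intro x hx
      have h1 : (q + 1) * N ≤ (x 1).val * N := Nat.mul_le_mul_right N hx
      rw [hρ]
      omega
    have hsub : ((univ : Finset (Edge (k + 2) n)).filter fun ed => ed.1 ∈ slab hd I ∧
        ed.1 + ev ed.2 ∈ slab hd I ∧ (ρ ed.1 < r ↔ ¬ ρ (ed.1 + ev ed.2) < r)) ⊆
        (CUT_A k n I q ×ˢ (univ.erase (1 : Fin (k + 2)))) ∪
        ((CUT_A k n I (q - 1) ∪ (CUT_A k n I q ∪ CUT_A k n I (n - 1))) ×ˢ
          ({1} : Finset (Fin (k + 2)))) := by
      rintro ⟨x, i⟩ hx
      obtain ⟨h1, h2, h3⟩ := (mem_filter.1 hx).2
      have h1' : x 0 ∈ I := (mem_filter.1 h1).2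
      have hxr : (ρ x < r ↔ ¬ ρ (x + ev i) < r) := h3
      rw [mem_union, mem_product, mem_product, mem_union, mem_union, mem_erase, mem_singleton]
      by_cases hi : i = 1
      · right
        refine ⟨?_, hi⟩
        subst hi
        have hv : (x + ev (1 : Fin (k + 2)) : Site (k + 2) n) 1 = x 1 + 1 := by
          simp [ev]
        have hxv : (x 1).val < n := ZMod.val_lt _
        have h1n : (1 : ZMod n).val = 1 := by
          have : Fact (1 < n) := ⟨by omega⟩
          exact ZMod.val_one n
        have hv2 : (x 1 + 1).val = ((x 1).val + 1) % n := by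
          rw [ZMod.val_add, h1n]
        by_cases hlast : (x 1).val = n - 1
        · right
          right
          exact mem_filter.2 ⟨mem_univ _, h1', hlast⟩
        · have hv3 : (x 1 + 1).val = (x 1).val + 1 := by
            rw [hv2, Nat.mod_eq_of_lt (by omega)]
          have hc1 : ¬ (x 1).val + 1 < q := by
            intro h
            have a1 := hlt x (by omega)
            have a2 := hlt (x + ev 1) (by rw [hv, hv3]; exact h)
            exact (hxr.1 a1) a2
          have hc2 : ¬ q < (x 1).val := by
            intro h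
            have a1 := hge x h
            have a2 := hge (x + ev 1) (by rw [hv, hv3]; omega)
            exact a1 (hxr.2 a2)
          by_cases hq : (x 1).val = q
          · right
            left
            exact mem_filter.2 ⟨mem_univ _, h1', hq⟩
          · left
            have hq9 : (x 1).val = q - 1 := by omega
            exact mem_filter.2 ⟨mem_univ _, h1', hq9⟩
      · left
        refine ⟨?_, hi, mem_univ _⟩
        have hv : (x + ev i : Site (k + 2) n) 1 = x 1 := by
          simp [ev, Ne.symm hi]
        have hc1 : ¬ (x 1).val < q := by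
          intro h
          have a1 := hlt x h
          have a2 := hlt (x + ev i) (by rw [hv]; exact h)
          exact (hxr.1 a1) a2
        have hc2 : ¬ q < (x 1).val := by
          intro h
          have a1 := hge x h
          have a2 := hge (x + ev i) (by rw [hv]; exact h)
          exact a1 (hxr.2 a2)
        have hq9 : (x 1).val = q := by omega
        exact mem_filter.2 ⟨mem_univ _, h1', hq9⟩
    refine (card_le_card hsub).trans ?_
    refine (card_union_le _ _).trans ?_
    rw [card_product, card_product, card_erase_of_mem (mem_univ _), card_univ, Fintype.card_fin,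
      card_singleton, mul_one]
    have c1 := CUT_card k n I q
    have c2 := CUT_card k n I (q - 1)
    have c3 := CUT_card k n I (n - 1)
    have c4 : (CUT_A k n I (q - 1) ∪ (CUT_A k n I q ∪ CUT_A k n I (n - 1))).card ≤
        (CUT_A k n I (q - 1)).card + ((CUT_A k n I q).card + (CUT_A k n I (n - 1)).card) :=
      (card_union_le _ _).trans (Nat.add_le_add_left (card_union_le _ _) _)
    have c5 : (CUT_A k n I q).card * (k + 2 - 1) ≤ I.card * n ^ k * (k + 1) := by
      have : k + 2 - 1 = k + 1 := by omega
      rw [this]
      exact Nat.mul_le_mul_right _ c1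
    have c6 : k + 2 - 2 = k := by omega
    rw [c6]
    calc (CUT_A k n I q).card * (k + 2 - 1) +
          (CUT_A k n I (q - 1) ∪ (CUT_A k n I q ∪ CUT_A k n I (n - 1))).card
        ≤ I.card * n ^ k * (k + 1) + (I.card * n ^ k + (I.card * n ^ k + I.card * n ^ k)) := by
          omega
      _ = (k + 2 + 2) * I.card * n ^ k := by ring

end CO
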