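import Pool.Agent.helper23.CO.SpecB

/-!
# Row FLD: long range order gives magnetisation in a small field
-/

open Finset Filter Topology

namespace CO

open CU

section FLD

variable {V : Type} [Fintype V] [DecidableEq V]

/-- spin flip -/
def FLD_flip (V : Type) : (V → Bool) ≃ (V → Bool) :=
  Function.Involutive.toPerm (fun σ x => !σ x) (fun σ => by funext x; simp)

theorem FLD_sg_not (b : Bool) : sg (!b) = - sg b := by
  cases b <;> simp [sg]

theorem FLD_sg_abs (b : Bool) : |sg b| ≤ 1 := by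
  cases b <;> simp [sg]

omit [DecidableEq V] in
theorem FLD_HH_flip (K : V → V → ℝ) (σ : V → Bool) :
    CWM.HH K (fun _ => 0) (FLD_flip V σ) = CWM.HH K (fun _ => 0) σ := by
  have h1 : ∀ x, sg (FLD_flip V σ x) = - sg (σ x) := fun x => FLD_sg_not (σ x)
  simp only [CWM.HH, h1, neg_mul_neg, zero_mul, sum_const_zero]

theorem FLD_HH_add (K : V → V → ℝ) (h : ℝ) (B : Finset V) (σ : V → Bool) :
    CWM.HH K (fun x => if x ∈ B then h else 0) σ =
      CWM.HH K (fun _ => 0) σ + h * ∑ x ∈ B, sg (σ x) := by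
  have h1 : ∑ x, (if x ∈ B then h else 0) * sg (σ x) = h * ∑ x ∈ B, sg (σ x) := by
    rw [mul_sum, ← sum_filter_add_sum_filter_not univ (fun x => x ∈ B)]
    have e1 : ∑ x ∈ univ.filter (fun x => x ∈ B), (if x ∈ B then h else 0) * sg (σ x) =
        ∑ x ∈ B, h * sg (σ x) := by
      rw [filter_mem_eq_inter, univ_inter]
      exact sum_congr rfl fun x hx => by rw [if_pos hx]
    have e2 : ∑ x ∈ univ.filter (fun x => ¬ x ∈ B), (if x ∈ B then h else 0) * sg (σ x) = 0 :=
      sum_eq_zero fun x hx => by rw [if_neg (mem_filter.1 hx).2, zero_mul]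
    rw [e1, e2, add_zero]
  simp only [CWM.HH, zero_mul, sum_const_zero, add_zero]
  rw [h1]

end FLD

/-- Row FLD. -/
theorem FLD (hLPI : LPI_stmt) (hTRI : TRI_stmt) (hHHT : HHT_stmt) (hLZ : LZ_stmt) : FLD_stmt := by
  classical
  intro d n _ hn b h q κ B hb hh hκ hκq hB hq
  have _h := hHHT
  set K : Site d n → Site d n → ℝ := KT b (fun _ => 0) with hK
  have hK0 : ∀ x y, 0 ≤ K x y := by
    intro x y
    rw [hK]
    simp only [KT, add_zero]
    exact mul_nonneg hb (sum_nonneg fun i _ => by split_ifs <;> norm_num)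
  set A : Conf d n → ℝ := CWM.HH K (fun _ => 0) with hA
  set S : Conf d n → ℝ := fun σ => ∑ x ∈ B, sg (σ x) with hS
  set N : ℝ := (B.card : ℝ) with hN
  have hNpos : 0 < N := by
    rw [hN]
    exact_mod_cast hB.card_pos
  set Z : ℝ := ∑ σ, Real.exp (A σ) with hZ
  have hZpos : 0 < Z := sum_pos (fun σ _ => Real.exp_pos _) univ_nonempty
  set c : ℝ := √(q - κ) with hc
  have hc0 : 0 ≤ c := Real.sqrt_nonneg _
  have hc2 : c ^ 2 = q - κ := Real.sq_sqrt (by linarith)
  -- second moment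
  have hmom : N ^ 2 * q * Z ≤ ∑ σ, Real.exp (A σ) * S σ ^ 2 := by
    have e1 : ∑ σ, Real.exp (A σ) * S σ ^ 2 =
        ∑ x ∈ B, ∑ y ∈ B, ∑ σ, Real.exp (A σ) * (sg (σ x) * sg (σ y)) := by
      have e2 : ∀ σ, Real.exp (A σ) * S σ ^ 2 =
          ∑ x ∈ B, ∑ y ∈ B, Real.exp (A σ) * (sg (σ x) * sg (σ y)) := by
        intro σ
        rw [hS, pow_two, sum_mul_sum, mul_sum]
        exact sum_congr rfl fun x _ => mul_sum _ _ _
      rw [sum_congr rfl (fun σ _ => e2 σ), sum_comm]
      exact sum_congr rfl fun x _ => sum_comm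
    have e3 : ∀ x ∈ B, ∀ y ∈ B, q * Z ≤ ∑ σ, Real.exp (A σ) * (sg (σ x) * sg (σ y)) := by
      intro x hx y hy
      have e4 := hq x hx y hy
      rw [← (hTRI d n b 0 (fun _ => 0)).1 x y] at e4
      have e5 : c2 (KT b fun _ => 0) (fun _ => 0) x y =
          (∑ σ, Real.exp (A σ) * (sg (σ x) * sg (σ y))) / Z := rfl
      rw [e5, le_div_iff₀ hZpos] at e4
      exact e4
    rw [e1]
    calc N ^ 2 * q * Z = ∑ x ∈ B, ∑ y ∈ B, q * Z := by
          rw [sum_const, sum_const, nsmul_eq_mul, nsmul_eq_mul]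
          ring
      _ ≤ _ := sum_le_sum fun x hx => sum_le_sum fun y hy => e3 x hx y hy
  have hSabs : ∀ σ, |S σ| ≤ N := by
    intro σ
    calc |S σ| ≤ ∑ x ∈ B, |sg (σ x)| := abs_sum_le_sum_abs _ _
      _ ≤ ∑ x ∈ B, (1 : ℝ) := sum_le_sum fun x _ => FLD_sg_abs _
      _ = N := by rw [sum_const, nsmul_eq_mul, mul_one]
  -- the two indicators
  let u : Conf d n → ℝ := fun σ => if N * c ≤ S σ then 1 else 0
  let u' : Conf d n → ℝ := fun σ => if N * c ≤ - S σ then 1 else 0
  have hpt : ∀ σ, S σ ^ 2 ≤ N ^ 2 * ((q - κ) + u σ + u' σ) := by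
    intro σ
    have hu0 : 0 ≤ u σ := by
      change 0 ≤ (if N * c ≤ S σ then (1 : ℝ) else 0)
      split_ifs <;> norm_num
    have hu0' : 0 ≤ u' σ := by
      change 0 ≤ (if N * c ≤ - S σ then (1 : ℝ) else 0)
      split_ifs <;> norm_num
    have hqκ : 0 ≤ q - κ := by linarith
    have hS2 : S σ ^ 2 ≤ N ^ 2 := by
      rw [← sq_abs]
      exact pow_le_pow_left₀ (abs_nonneg _) (hSabs σ) 2
    by_cases h1 : N * c ≤ S σ
    · have e1 : u σ = 1 := if_pos h1
      calc S σ ^ 2 ≤ N ^ 2 * 1 := by rw [mul_one]; exact hS2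
        _ ≤ N ^ 2 * ((q - κ) + u σ + u' σ) :=
            mul_le_mul_of_nonneg_left (by rw [e1]; linarith) (sq_nonneg _)
    · by_cases h2 : N * c ≤ - S σ
      · have e1 : u' σ = 1 := if_pos h2
        calc S σ ^ 2 ≤ N ^ 2 * 1 := by rw [mul_one]; exact hS2
          _ ≤ N ^ 2 * ((q - κ) + u σ + u' σ) :=
              mul_le_mul_of_nonneg_left (by rw [e1]; linarith) (sq_nonneg _)
      · have e1 : |S σ| ≤ N * c := by
          rw [abs_le]
          constructor
          · linarith [not_le.1 h2]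
          · exact (not_le.1 h1).le
        calc S σ ^ 2 = |S σ| ^ 2 := (sq_abs _).symm
          _ ≤ (N * c) ^ 2 := pow_le_pow_left₀ (abs_nonneg _) e1 2
          _ = N ^ 2 * (q - κ) := by rw [mul_pow, hc2]
          _ ≤ N ^ 2 * ((q - κ) + u σ + u' σ) :=
              mul_le_mul_of_nonneg_left (by linarith) (sq_nonneg _)
  have hflip : ∑ σ, Real.exp (A σ) * u' σ = ∑ σ, Real.exp (A σ) * u σ := by
    refine Fintype.sum_equiv (FLD_flip (Site d n)) _ _ ?_
    intro σ
    have e1 : A (FLD_flip (Site d n) σ) = A σ := FLD_HH_flip K σ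
    have e2 : S (FLD_flip (Site d n) σ) = - S σ := by
      change ∑ x ∈ B, sg (!σ x) = - ∑ x ∈ B, sg (σ x)
      rw [← sum_neg_distrib]
      exact sum_congr rfl fun x _ => FLD_sg_not _
    change Real.exp (A σ) * (if N * c ≤ - S σ then (1 : ℝ) else 0) =
      Real.exp (A (FLD_flip (Site d n) σ)) *
        (if N * c ≤ S (FLD_flip (Site d n) σ) then (1 : ℝ) else 0)
    rw [e1, e2]
  have hU : κ / 2 * Z ≤ ∑ σ, Real.exp (A σ) * u σ := by
    have e1 : ∑ σ, Real.exp (A σ) * S σ ^ 2 ≤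
        ∑ σ, Real.exp (A σ) * (N ^ 2 * ((q - κ) + u σ + u' σ)) :=
      sum_le_sum fun σ _ => mul_le_mul_of_nonneg_left (hpt σ) (Real.exp_pos _).le
    have e2 : ∑ σ, Real.exp (A σ) * (N ^ 2 * ((q - κ) + u σ + u' σ)) =
        N ^ 2 * ((q - κ) * Z + (∑ σ, Real.exp (A σ) * u σ) + ∑ σ, Real.exp (A σ) * u' σ) := by
      rw [hZ, mul_sum, ← sum_add_distrib, ← sum_add_distrib, mul_sum]
      exact sum_congr rfl fun σ _ => by ring
    rw [e2, hflip] at e1
    have e3 : N ^ 2 * (q * Z) ≤ N ^ 2 * ((q - κ) * Z + (∑ σ, Real.exp (A σ) * u σ) +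
        ∑ σ, Real.exp (A σ) * u σ) := by
      calc N ^ 2 * (q * Z) = N ^ 2 * q * Z := by ring
        _ ≤ _ := hmom.trans e1
    have e4 := le_of_mul_le_mul_left e3 (by positivity)
    linarith
  -- exponential moment
  have hexp : Real.exp (h * (N * c)) * (κ / 2 * Z) ≤ ∑ σ, Real.exp (A σ + h * S σ) := by
    calc Real.exp (h * (N * c)) * (κ / 2 * Z)
        ≤ Real.exp (h * (N * c)) * ∑ σ, Real.exp (A σ) * u σ :=
          mul_le_mul_of_nonneg_left hU (Real.exp_pos _).le
      _ = ∑ σ, Real.exp (h * (N * c)) * (Real.exp (A σ) * u σ) := mul_sum _ _ _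
      _ ≤ ∑ σ, Real.exp (A σ + h * S σ) := by
          apply sum_le_sum
          intro σ _
          by_cases h1 : N * c ≤ S σ
          · have e1 : u σ = 1 := if_pos h1
            rw [e1, mul_one, ← Real.exp_add]
            apply Real.exp_le_exp.2
            have := mul_le_mul_of_nonneg_left h1 hh.le
            linarith
          · have e1 : u σ = 0 := if_neg h1
            rw [e1, mul_zero, mul_zero]
            exact (Real.exp_pos _).le
  have hlog : h * (N * c) - Real.log (2 / κ) ≤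
      Real.log (∑ σ, Real.exp (A σ + h * S σ)) - Real.log Z := by
    have e1 : Real.log (Real.exp (h * (N * c)) * (κ / 2 * Z)) ≤
        Real.log (∑ σ, Real.exp (A σ + h * S σ)) := Real.log_le_log (by positivity) hexp
    rw [Real.log_mul (Real.exp_pos _).ne' (by positivity), Real.log_exp,
      Real.log_mul (by positivity) hZpos.ne'] at e1
    have e2 : Real.log (κ / 2) = - Real.log (2 / κ) := by
      rw [← Real.log_inv]
      congr 1
      rw [inv_div]
    rw [e2] at e1
    linarith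
  have hlz := ((hLZ (Conf d n) A S).2 h hh.le).2
  -- the magnetisation in the field on B
  set gB : Site d n → ℝ := fun x => if x ∈ B then h else 0 with hgB
  have hHB : ∀ σ, CWM.HH K gB σ = A σ + h * S σ := fun σ => FLD_HH_add K h B σ
  have hx : ∀ x, ex K gB (fun σ => sg (σ x)) ≤ mT d n b h := by
    intro x
    have e1 := (hLPI (Site d n) K K (fun _ => h) gB (fun x y => (abs_of_nonneg (hK0 x y)).le)
      (fun x => by
        change |(if x ∈ B then h else 0)| ≤ h
        split_ifs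
        · exact (abs_of_pos hh).le
        · rw [abs_zero]; exact hh.le)).1 x
    have e2 := (hTRI d n b h (fun _ => 0)).2.1 x
    have e3 : ex K (fun _ => h) (fun σ => sg (σ x)) = mT d n b h := e2
    rw [e3] at e1
    exact (le_abs_self _).trans e1
  have hav : (∑ σ, Real.exp (A σ + h * S σ) * S σ) / ∑ σ, Real.exp (A σ + h * S σ) =
      ∑ x ∈ B, ex K gB (fun σ => sg (σ x)) := by
    have e1 : ∀ x, ex K gB (fun σ => sg (σ x)) =
        (∑ σ, Real.exp (A σ + h * S σ) * sg (σ x)) / ∑ σ, Real.exp (A σ + h * S σ) := by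
      intro x
      simp only [ex, hHB]
    rw [sum_congr rfl (fun x _ => e1 x), ← sum_div, sum_comm]
    congr 1
    exact sum_congr rfl fun σ _ => mul_sum _ _ _
  have hfin : h * (N * c) - Real.log (2 / κ) ≤ h * (N * mT d n b h) := by
    refine (hlog.trans hlz).trans ?_
    rw [hav]
    apply mul_le_mul_of_nonneg_left _ hh.le
    calc ∑ x ∈ B, ex K gB (fun σ => sg (σ x)) ≤ ∑ x ∈ B, mT d n b h :=
          sum_le_sum fun x _ => hx x
      _ = N * mT d n b h := by rw [sum_const, nsmul_eq_mul]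
  have hpos : 0 < h * N := mul_pos hh hNpos
  have e1 : (c - Real.log (2 / κ) / (h * N)) * (h * N) ≤ mT d n b h * (h * N) := by
    have e2 : (c - Real.log (2 / κ) / (h * N)) * (h * N) = h * (N * c) - Real.log (2 / κ) := by
      field_simp
    rw [e2]
    calc h * (N * c) - Real.log (2 / κ) ≤ h * (N * mT d n b h) := hfin
      _ = mT d n b h * (h * N) := by ring
  exact le_of_mul_le_mul_right e1 hpos

end CO
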